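import Pool.Agent.H74R2.WT.Stmts

set_option autoImplicit false

open MeasureTheory Set

namespace H74R2.WT

theorem e3_neg {α : Type*} (l : List α) (f : α → ℝ) :
    - (l.map f).sum = (l.map (fun x => - f x)).sum := by
  induction l with
  | nil => simp
  | cons a l ih => rw [List.map_cons, List.map_cons, List.sum_cons, List.sum_cons, neg_add, ih]

theorem t_E3 : T_E3 := by
  intro hC K σ φ hφ G l hl
  have hex : ∃ l : List (Piece K), RepOf K G l := ⟨l, hl⟩
  have h0 : Ar σ φ G = (hex.choose.map (fun p => p.J σ φ)).sum := by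
    unfold Ar
    rw [dif_pos hex]
  have hl' := hex.choose_spec
  set l' := hex.choose with hl'def
  rw [h0]
  have h1 := hC K σ φ hφ (l.map (fun p => ((1 : ℤ), p)) ++ l'.map (fun p => ((-1 : ℤ), p))) (by
    filter_upwards [hl, hl'] with s hs1 hs2
    rw [List.map_append, List.sum_append, List.map_map, List.map_map]
    have e1 : (l.map ((fun q : ℤ × Piece K => (q.1 : ℝ) * q.2.f s) ∘ fun p => ((1 : ℤ), p))).sum =
        (l.map (fun p => p.f s)).sum := by
      congr 1
      refine List.map_congr_left fun p _ => ?_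
      simp
    have e2 : (l'.map ((fun q : ℤ × Piece K => (q.1 : ℝ) * q.2.f s) ∘
        fun p => ((-1 : ℤ), p))).sum = - (l'.map (fun p => p.f s)).sum := by
      rw [e3_neg]
      congr 1
      refine List.map_congr_left fun p _ => ?_
      simp
    rw [e1, e2, ← hs1, ← hs2, add_neg_cancel])
  rw [List.map_append, List.sum_append, List.map_map, List.map_map] at h1
  have e1 : (l.map ((fun q : ℤ × Piece K => (q.1 : ℝ) * q.2.J σ φ) ∘ fun p => ((1 : ℤ), p))).sum =
      (l.map (fun p => p.J σ φ)).sum := by
    congr 1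
    refine List.map_congr_left fun p _ => ?_
    simp
  have e2 : (l'.map ((fun q : ℤ × Piece K => (q.1 : ℝ) * q.2.J σ φ) ∘
      fun p => ((-1 : ℤ), p))).sum = - (l'.map (fun p => p.J σ φ)).sum := by
    rw [e3_neg]
    congr 1
    refine List.map_congr_left fun p _ => ?_
    simp
  rw [e1, e2] at h1
  linarith

end H74R2.WT
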